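import Pool.Agent.Helper55.SCH.Goals

set_option autoImplicit false

/-!
# Packet SCH-DZ (MP_c13f7d_co, owner helper55)
-/

namespace Pool.Agent.Helper16.SCH

open Finset Pool.Agent.Helper55.SCH

theorem goalDZ : G_DZ := by
  intro hub telg c u lam s r hc p hpu h2p v hv
  subst hv
  have hl : 1 ≤ lam := hc.lam1
  have hl0 : 0 < lam := by linarith
  obtain ⟨_, _, _, _, hH, _, _, _⟩ := hub lam hl0
  have P1 : ∀ t, |max (-t) 0 - (Hub lam t - t) / 2| ≤ lam / 4 := by
    intro t
    have h1 := hH t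
    rcases le_total t 0 with h | h
    · rw [abs_of_nonpos h] at h1
      rw [max_eq_left (by linarith), abs_le]
      constructor <;> linarith [h1.1, h1.2]
    · rw [abs_of_nonneg h] at h1
      rw [max_eq_right (by linarith), abs_le]
      constructor <;> linarith [h1.1, h1.2]
  have hSr : ∀ x, u ≤ x → S r x = S r u := by
    intro x hx
    unfold S
    symm
    apply Finset.sum_subset (Icc_subset_Icc_right hx)
    intro y hy hyn
    apply hc.r0
    exact hyn
  have hgc : g1 c u s r c = S s c := by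
    unfold g1
    rw [hSr c (by omega)]
    simp [S]
  have hcp : ((c - p : ℕ) : ℝ) = (c : ℝ) - p := Nat.cast_sub (by omega)
  have hcl : (0 : ℝ) ≤ (c : ℝ) / lam := by positivity
  have hpc : (p : ℝ) ≤ c := by exact_mod_cast (by omega : p ≤ c)
  have hp0 : (0 : ℝ) ≤ p := Nat.cast_nonneg p
  have hal : ∀ x, s x = 2 * al s x - 1 := by
    intro x
    unfold al
    ring
  have hrefl : ∑ x ∈ Ioc (c - p) c, al s x * al s (c + 1 - x)
      = ∑ x ∈ Icc 1 p, al s x * al s (c + 1 - x) := by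
    refine Finset.sum_nbij' (fun x => c + 1 - x) (fun x => c + 1 - x) ?_ ?_ ?_ ?_ ?_
    · intro x hx
      simp only [mem_Ioc, mem_Icc] at hx ⊢
      omega
    · intro x hx
      simp only [mem_Ioc, mem_Icc] at hx ⊢
      omega
    · intro x hx
      simp only [mem_Ioc, mem_Icc] at hx ⊢
      omega
    · intro x hx
      simp only [mem_Ioc, mem_Icc] at hx ⊢
      omega
    · intro x hx
      simp only [mem_Ioc] at hx
      have : c + 1 - (c + 1 - x) = x := by omega
      rw [this]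
      ring
  obtain ⟨a1, a2⟩ := telg c u lam s r hc (c - p) c (Nat.sub_le c p) le_rfl
  obtain ⟨b1, b2⟩ := telg c u lam s r hc 0 (c - p) (Nat.zero_le _) (Nat.sub_le c p)
  have E1 : ∑ x ∈ Ioc (c - p) c, s x * (s (c + 1 - x) + 2 * r x)
      + ∑ x ∈ Ioc (c - p) c, (s (c + 1 - x) + 2 * r x)
      = 2 * (2 * (∑ x ∈ Icc 1 p, al s x * al s (c + 1 - x)) - ∑ x ∈ Ioc (c - p) c, al s x) := by
    rw [← hrefl, ← Finset.sum_add_distrib, Finset.mul_sum, ← Finset.sum_sub_distrib,
      Finset.mul_sum]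
    refine Finset.sum_congr rfl ?_
    intro x hx
    simp only [mem_Ioc] at hx
    have hr : r x = 0 := hc.r0 x (by simp only [mem_Icc]; omega)
    rw [hr]
    have e1 := hal x
    have e2 := hal (c + 1 - x)
    rw [e2, e1]
    ring
  have hIoc : Ioc 0 (c - p) = Icc 1 (c - p) := by
    ext x
    simp only [mem_Ioc, mem_Icc]
    omega
  have hsplit : ∑ x ∈ Icc 1 (c - p), al s x * al s (c + 1 - x)
      = ∑ x ∈ Icc 1 p, al s x * al s (c + 1 - x)
        + ∑ x ∈ Ioc p (c - p), al s x * al s (c + 1 - x) := by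
    have : Icc 1 (c - p) = Icc 1 p ∪ Ioc p (c - p) := by
      ext x
      simp only [mem_Ioc, mem_Icc, mem_union]
      omega
    rw [this, Finset.sum_union]
    rw [Finset.disjoint_left]
    intro x hx hx2
    simp only [mem_Ioc, mem_Icc] at hx hx2
    omega
  have hrsum : ∑ x ∈ Icc 1 (c - p), al s x * r x
      = 2 * (∑ x ∈ Icc 1 u, al s x * al r x) - ∑ x ∈ Icc 1 u, al s x := by
    have h1 : ∑ x ∈ Icc 1 (c - p), al s x * r x = ∑ x ∈ Icc 1 u, al s x * r x := by
      symm
      apply Finset.sum_subset (Icc_subset_Icc_right (by omega))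
      intro y hy hyn
      rw [hc.r0 y hyn, mul_zero]
    rw [h1, Finset.mul_sum, ← Finset.sum_sub_distrib]
    refine Finset.sum_congr rfl ?_
    intro x hx
    unfold al
    ring
  have E2 : ∑ x ∈ Ioc 0 (c - p), s x * (s (c + 1 - x) + 2 * r x)
      + ∑ x ∈ Ioc 0 (c - p), (s (c + 1 - x) + 2 * r x)
      = 2 * (2 * (∑ x ∈ Icc 1 (c - p), al s x * al s (c + 1 - x))
        - ∑ x ∈ Icc 1 (c - p), al s x + 2 * ∑ x ∈ Icc 1 (c - p), al s x * r x) := by
    rw [hIoc, ← Finset.sum_add_distrib, Finset.mul_sum, Finset.mul_sum,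
      ← Finset.sum_sub_distrib, ← Finset.sum_add_distrib, Finset.mul_sum]
    refine Finset.sum_congr rfl ?_
    intro x hx
    have e1 := hal x
    have e2 := hal (c + 1 - x)
    rw [e2, e1]
    ring
  rw [hsplit, hrsum] at E2
  have Pc := P1 (g1 c u s r c)
  have Pp := P1 (g1 c u s r (c - p))
  have P0 := P1 (g1 c u s r 0)
  have hmc : max (-(g1 c u s r c)) 0 = - S s c := by
    rw [hgc]
    exact max_eq_left (by linarith [hc.neg])
  rw [hmc] at Pc
  have herr1 : 5 * ((c : ℝ) - ((c - p : ℕ) : ℝ)) / lam ≤ 5 * (c / lam) := by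
    rw [hcp, ← mul_div_assoc]
    apply div_le_div_of_nonneg_right _ hl0.le
    linarith
  have herr2 : 5 * (((c - p : ℕ) : ℝ) - ((0 : ℕ) : ℝ)) / lam ≤ 5 * (c / lam) := by
    rw [hcp, ← mul_div_assoc]
    apply div_le_div_of_nonneg_right _ hl0.le
    push_cast
    linarith
  have a2' := a2.trans herr1
  have b2' := b2.trans herr2
  rw [abs_le] at Pc Pp P0 a2' b2'
  simp only [mkV]
  constructor
  · rw [abs_le]
    constructor <;> linarith [Pc.1, Pc.2, Pp.1, Pp.2, a2'.1, a2'.2]
  · rw [abs_le]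
    constructor <;> linarith [P0.1, P0.2, Pp.1, Pp.2, b2'.1, b2'.2]

end Pool.Agent.Helper16.SCH
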